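import Pool.Agent.helper7.LT.Fin2

set_option autoImplicit false

/-!
# Spanning tree decompositions of arbitrarily coloured complete graphs with few edges of each colour
-/

namespace Pool.Agent.Results.MP_387ec7_co.AllColourings

/-- The number of edges of colour `k` in `K_{2n}`. -/
noncomputable def mc {n : ℕ} {C : Type} (c : Sym2 (Fin (2 * n)) → C) (k : C) : ℕ :=
  {e | ¬ e.IsDiag ∧ c e = k}.ncard

/-- The number of edges of colour `k` in the `i`-th tree. -/
noncomputable def ec {n : ℕ} {C : Type} (c : Sym2 (Fin (2 * n)) → C)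
    (t : Sym2 (Fin (2 * n)) → Fin n) (k : C) (i : Fin n) : ℕ :=
  {e | ¬ e.IsDiag ∧ t e = i ∧ c e = k}.ncard

/-- For every `n` and every edge colouring of `K_{2n}` there is a decomposition into `n` spanning
trees with `|E_k(T_i)| ≤ ⌈2 ^ 512 m_k / n⌉` for all trees `T_i` and all colours `k`. -/
theorem result (n : ℕ) (C : Type) (c : Sym2 (Fin (2 * n)) → C) :
    ∃ t : Sym2 (Fin (2 * n)) → Fin n,
      (∀ i, (SimpleGraph.fromEdgeSet {e | t e = i}).IsTree) ∧
      ∀ k i, (ec c t k i : ℤ) ≤ ⌈(2 ^ 512 * (mc c k : ℚ)) / n⌉ :=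
  Pool.Agent.helper7.LT.all_colourings n C c

end Pool.Agent.Results.MP_387ec7_co.AllColourings
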