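import Pool.Agent.helper7.AQ.Fin

set_option autoImplicit false

/-!
# Colour-balanced spanning tree decompositions: almost all trees are balanced for all colours

For `n ≥ n₀` and every (improper) edge colouring of `K_{2n}` there is a decomposition into `n`
spanning trees such that all but at most `n ^ (24 / 25)` of the trees `T` satisfy
`⌊m_k / n⌋ ≤ |E_k(T)| ≤ ⌈m_k / n⌉` for all colours `k` simultaneously.

Sketch of the proof.  Refine the colouring such that all classes have at most `n` edges and it is
enough to find rainbow spanning trees which meet all classes with exactly `n` edges.  Remove such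
trees one by one; the remaining graph has `N (2 n - 1)` edges and at most `N` edges of every colour,
and the next tree has to meet the classes with `N` remaining edges.  It is found as a vertex of a face of the
intersection of the spanning tree polytope and the polytope given by the colour classes (weighted
form of the theorems of Rado and Edmonds), restricted to a sparse random set of edges, with small
weight for a potential which controls the degrees and the fourth Schatten norm of the deviation
matrix of the remaining graph.  The remaining trees come from the theorem of Nash-Williams.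
-/

namespace Pool.Agent.Results.MP_387ec7_co.AlmostAllTrees

/-- The number of edges of colour `k` in `K_{2n}`. -/
noncomputable def mc {n : ℕ} {C : Type} (c : Sym2 (Fin (2 * n)) → C) (k : C) : ℕ :=
  {e | ¬ e.IsDiag ∧ c e = k}.ncard

/-- The number of edges of colour `k` in the `i`-th tree. -/
noncomputable def ec {n : ℕ} {C : Type} (c : Sym2 (Fin (2 * n)) → C)
    (t : Sym2 (Fin (2 * n)) → Fin n) (k : C) (i : Fin n) : ℕ :=
  {e | ¬ e.IsDiag ∧ t e = i ∧ c e = k}.ncard

/-- There is `n₀` such that for all `n ≥ n₀` and every edge colouring `c` of `K_{2n}` the edges of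
`K_{2n}` split into `n` spanning trees (`t e` is the number of the tree of the edge `e`) such that
all trees but at most `n ^ (24 / 25)` satisfy `⌊m_k / n⌋ ≤ |E_k(T_i)| ≤ ⌈m_k / n⌉` for all colours `k`
simultaneously. -/
theorem result : ∃ n₀ : ℕ, ∀ n ≥ n₀, ∀ (C : Type) (c : Sym2 (Fin (2 * n)) → C),
    ∃ t : Sym2 (Fin (2 * n)) → Fin n,
      (∀ i, (SimpleGraph.fromEdgeSet {e | t e = i}).IsTree) ∧
      ({i | ¬ ∀ k, ⌊(mc c k : ℚ) / n⌋ ≤ (ec c t k i : ℤ) ∧
          (ec c t k i : ℤ) ≤ ⌈(mc c k : ℚ) / n⌉}.ncard : ℝ) ≤ (n : ℝ) ^ (24 / 25 : ℝ) :=
  Pool.Agent.helper7.AQ.main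

end Pool.Agent.Results.MP_387ec7_co.AlmostAllTrees
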