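import Pool.Agent.helper7.RT.Split

set_option autoImplicit false

/-!
# Colour-balanced spanning tree decompositions of properly coloured complete graphs
-/

open Filter

namespace Pool.Agent.Results.MP_387ec7_co.RainbowTreesProper

/-- The number of edges of colour `k` in `K_{2n}`. -/
noncomputable def mc {n : ℕ} {C : Type} (c : Sym2 (Fin (2 * n)) → C) (k : C) : ℕ :=
  {e | ¬ e.IsDiag ∧ c e = k}.ncard

/-- The number of edges of colour `k` in the `i`-th tree. -/
noncomputable def ec {n : ℕ} {C : Type} (c : Sym2 (Fin (2 * n)) → C)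
    (t : Sym2 (Fin (2 * n)) → Fin n) (k : C) (i : Fin n) : ℕ :=
  {e | ¬ e.IsDiag ∧ t e = i ∧ c e = k}.ncard

theorem sum_ec {n : ℕ} {C : Type} (c : Sym2 (Fin (2 * n)) → C)
    (t : Sym2 (Fin (2 * n)) → Fin n) (k : C) : ∑ i, ec c t k i = mc c k := by
  classical
  unfold ec mc
  rw [Set.ncard_eq_toFinset_card']
  rw [Finset.card_eq_sum_card_fiberwise (f := t) (t := Finset.univ) (fun _ _ => Finset.mem_coe.2 (Finset.mem_univ _))]
  refine Finset.sum_congr rfl fun i _ => ?_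
  rw [Set.ncard_eq_toFinset_card']
  congr 1
  ext e
  simp only [Set.mem_toFinset, Set.mem_setOf_eq, Finset.mem_filter]
  tauto

theorem count (n m L : ℕ) (e : Fin n → ℕ) (hn : 0 < n) (hm : m ≤ n) (hs : ∑ i, e i = m)
    (h2 : ∀ i, e i ≤ 2) (h : {i | 2 ≤ e i}.ncard ≤ m - L) :
    {i | ¬ (⌊(m : ℚ) / n⌋ ≤ (e i : ℤ) ∧ (e i : ℤ) ≤ ⌈(m : ℚ) / n⌉)}.ncard ≤ 2 * (m - L) := by
  classical
  have hnq : (0 : ℚ) < n := by exact_mod_cast hn
  rcases Nat.eq_zero_or_pos m with h0 | h0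
  · have he : ∀ i, e i = 0 := by
      intro i
      have := Finset.single_le_sum (f := e) (fun j _ => Nat.zero_le _) (Finset.mem_univ i)
      omega
    have : {i | ¬ (⌊(m : ℚ) / n⌋ ≤ (e i : ℤ) ∧ (e i : ℤ) ≤ ⌈(m : ℚ) / n⌉)} = ∅ := by
      ext i
      simp [h0, he i]
    rw [this]
    simp
  rcases Nat.lt_or_ge m n with h1 | h1
  · have hf : ⌊(m : ℚ) / n⌋ = 0 := by
      rw [Int.floor_eq_zero_iff]
      constructor
      · positivity
      · rw [div_lt_one hnq]
        exact_mod_cast h1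
    have hc : ⌈(m : ℚ) / n⌉ = 1 := by
      rw [Int.ceil_eq_iff]
      have hmq : (0 : ℚ) < m := by exact_mod_cast h0
      refine ⟨?_, ?_⟩
      · have : 0 < (m : ℚ) / n := by positivity
        push_cast
        linarith
      · rw [div_le_iff₀ hnq]
        push_cast
        have : (m : ℚ) ≤ n := by exact_mod_cast hm
        linarith
    refine le_trans (le_trans (Set.ncard_le_ncard ?_ (Set.toFinite _)) h) (by omega)
    intro i hi
    simp only [Set.mem_setOf_eq, hf, hc, not_and_or, not_le] at hi ⊢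
    omega
  · have hmn : m = n := le_antisymm hm h1
    subst hmn
    have hq : (m : ℚ) / m = 1 := div_self (ne_of_gt hnq)
    rw [hq]
    have hset : {i | ¬ (⌊(1 : ℚ)⌋ ≤ (e i : ℤ) ∧ (e i : ℤ) ≤ ⌈(1 : ℚ)⌉)} ⊆
        {i | e i = 0} ∪ {i | 2 ≤ e i} := by
      intro i hi
      simp only [Set.mem_setOf_eq, Int.floor_one, Int.ceil_one, not_and_or, not_le,
        Set.mem_union] at hi ⊢
      omega
    have h3 : {i | e i = 0}.ncard = {i | 2 ≤ e i}.ncard := by
      have a1 : ∑ i, e i = ∑ i : Fin m, 1 := by simp [hs]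
      have a2 : ∀ i, e i + (if e i = 0 then 1 else 0) = 1 + (if 2 ≤ e i then 1 else 0) := by
        intro i
        have := h2 i
        split_ifs <;> omega
      have a3 : ∑ i, (e i + (if e i = 0 then 1 else 0)) =
          ∑ i, (1 + (if 2 ≤ e i then 1 else 0)) := Finset.sum_congr rfl fun i _ => a2 i
      rw [Finset.sum_add_distrib, Finset.sum_add_distrib, a1] at a3
      have a4 := Nat.add_left_cancel a3
      rw [← Finset.card_filter, ← Finset.card_filter] at a4
      rw [Set.ncard_eq_toFinset_card', Set.ncard_eq_toFinset_card']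
      convert a4 using 2 <;> ext i <;> simp
    calc _ ≤ ({i | e i = 0} ∪ {i | 2 ≤ e i}).ncard :=
          Set.ncard_le_ncard hset (Set.toFinite _)
      _ ≤ {i | e i = 0}.ncard + {i | 2 ≤ e i}.ncard := Set.ncard_union_le _ _
      _ ≤ 2 * (m - L) := by omega

/-- For all large `n` and every proper edge colouring of `K_{2n}` there is a decomposition into `n`
spanning trees with at most two edges of each colour in each tree, such that for every colour `k`
the bounds `⌊m_k / n⌋ ≤ |E_k(T_i)| ≤ ⌈m_k / n⌉` hold for all `i` but at most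
`2 max(0, m_k - n + ⌈n ^ (24 / 25)⌉)`. -/
theorem result : ∃ n₀ : ℕ, ∀ n ≥ n₀, ∀ (C : Type) (c : Sym2 (Fin (2 * n)) → C),
    (∀ x y z : Fin (2 * n), x ≠ y → x ≠ z → y ≠ z → c s(x, y) ≠ c s(x, z)) →
    ∃ t : Sym2 (Fin (2 * n)) → Fin n,
      (∀ i, (SimpleGraph.fromEdgeSet {e | t e = i}).IsTree) ∧
      ∀ k : C, (∀ i, ec c t k i ≤ 2) ∧
        {i | ¬ (⌊(mc c k : ℚ) / n⌋ ≤ (ec c t k i : ℤ) ∧
          (ec c t k i : ℤ) ≤ ⌈(mc c k : ℚ) / n⌉)}.ncard ≤
          2 * (mc c k - (n - ⌈(n : ℝ) ^ (24 / 25 : ℝ)⌉₊)) := by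
  obtain ⟨n₀, h⟩ := eventually_atTop.1 Pool.Agent.helper7.RT.main_all
  refine ⟨n₀ + 1, fun n hn C c hc => ?_⟩
  obtain ⟨t, ht, hk⟩ := h n (by omega) C c hc
  refine ⟨t, ht, fun k => ⟨(hk k).1, ?_⟩⟩
  exact count n (mc c k) _ (ec c t k) (by omega)
    (Pool.Agent.helper7.RT.class_le n C c hc k) (sum_ec c t k) (hk k).1 (hk k).2

end Pool.Agent.Results.MP_387ec7_co.RainbowTreesProper
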